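import Pool.Agent.N699.AO.Stm

set_option autoImplicit false

/-! Project AO (helper699), leaf RHOFA -/

namespace Pool.Agent.N378.AO
open Finset Pool.Agent.N699.AO

/-- the local factor -/
noncomputable def th (p : ℕ) : ℝ :=
  if p = 2 then 1 else if p = 3 then 4 / 9 else 1 - 5 / (p : ℝ) + 2 / (p : ℝ) ^ 2

lemma th_pos {p : ℕ} (hp : p.Prime) : 0 < th p := by
  unfold th
  split_ifs with h2 h3
  · norm_num
  · norm_num
  · have h5 : 5 ≤ p := by
      have := hp.two_le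
      have h4 : p ≠ 4 := by
        rintro rfl
        exact absurd hp (by norm_num)
      omega
    have h5' : (5 : ℝ) ≤ p := by exact_mod_cast h5
    have h6 : 5 / (p : ℝ) ≤ 1 := (div_le_one (by linarith)).2 h5'
    have h7 : 0 < 2 / (p : ℝ) ^ 2 := by positivity
    linarith

lemma prime_cases {p : ℕ} (hp : p.Prime) : p = 2 ∨ p = 3 ∨ 5 ≤ p := by
  have := hp.two_le
  have h4 : p ≠ 4 := by
    rintro rfl
    exact absurd hp (by norm_num)
  omega

lemma th_le (h2 : RS2) (h3 : RS3) (hP : RSP) {p : ℕ} (hp : p.Prime) (hz : NeZero p) (k : ℕ)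
    (ν : ZMod p) : (p : ℝ) ^ 2 * th p ≤ rhoS p k ν := by
  rcases prime_cases hp with h | h | h
  · subst h
    have h4 := h2 k ν
    have h5 : (4 : ℝ) ≤ rhoS 2 k ν := by exact_mod_cast h4
    have h6 : (rhoS 2 k ν : ℝ) = @rhoS 2 k hz ν := by congr
    rw [← h6]
    refine le_trans (le_of_eq ?_) h5
    norm_num [th]
  · subst h
    have h4 := h3 k ν
    have h5 : (4 : ℝ) ≤ rhoS 3 k ν := by exact_mod_cast h4
    have h6 : (rhoS 3 k ν : ℝ) = @rhoS 3 k hz ν := by congr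
    rw [← h6]
    refine le_trans (le_of_eq ?_) h5
    norm_num [th]
  · have h4 := hP p hp h hz k ν
    have h5 : (p : ℝ) ^ 2 + 2 ≤ rhoS p k ν + 5 * p := by exact_mod_cast h4
    have hp0 : (0 : ℝ) < p := by exact_mod_cast hp.pos
    have h6 : (p : ℝ) ^ 2 * th p = p ^ 2 - 5 * p + 2 := by
      unfold th
      rw [if_neg (by omega), if_neg (by omega)]
      field_simp
    rw [h6]
    linarith

lemma local_le (hL : LIFT) (h2 : RS2) (h3 : RS3) (hP : RSP) {p : ℕ} (hp : p.Prime) (e k : ℕ)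
    (hz : NeZero (p ^ (e + 1))) (ν : ℤ) :
    ((p ^ (e + 1) : ℕ) : ℝ) ^ 2 * th p ≤ rho (p ^ (e + 1)) k (ν : ZMod (p ^ (e + 1))) := by
  have hz1 : NeZero p := ⟨hp.ne_zero⟩
  have h4 := hL p hp hz1 e k hz ν
  have h5 : (p : ℝ) ^ (2 * e) * rhoS p k (ν : ZMod p) ≤
      rho (p ^ (e + 1)) k (ν : ZMod (p ^ (e + 1))) := by exact_mod_cast h4
  refine le_trans ?_ h5
  have h6 := th_le h2 h3 hP hp hz1 k (ν : ZMod p)
  calc ((p ^ (e + 1) : ℕ) : ℝ) ^ 2 * th p = (p : ℝ) ^ (2 * e) * ((p : ℝ) ^ 2 * th p) := by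
        push_cast
        ring
    _ ≤ _ := mul_le_mul_of_nonneg_left h6 (by positivity)

lemma all_le (hL : LIFT) (h2 : RS2) (h3 : RS3) (hP : RSP) (hC : RHOC) (k : ℕ) :
    ∀ D : ℕ, ∀ _ : NeZero D, ∀ ν : ℤ,
      (D : ℝ) ^ 2 * ∏ p ∈ D.primeFactors, th p ≤ rho D k (ν : ZMod D) := by
  intro D
  induction D using Nat.recOnPosPrimePosCoprime with
  | prime_pow p n hp hn =>
    intro hz ν
    obtain ⟨e, rfl⟩ : ∃ e, n = e + 1 := ⟨n - 1, by omega⟩
    rw [Nat.primeFactors_prime_pow (by omega) hp, Finset.prod_singleton]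
    exact local_le hL h2 h3 hP hp e k hz ν
  | zero =>
    intro hz
    exact absurd rfl hz.ne
  | one =>
    intro hz ν
    rw [Nat.primeFactors_one, Finset.prod_empty, Nat.cast_one, one_pow, one_mul]
    have h : 0 < @rho 1 k hz (ν : ZMod 1) := by
      unfold rho
      rw [Finset.card_pos]
      exact ⟨(0, 0, 0), Finset.mem_filter.2 ⟨Finset.mem_univ _, Subsingleton.elim _ _⟩⟩
    exact_mod_cast h
  | coprime a b ha hb hab iha ihb =>
    intro hz ν
    have hza : NeZero a := ⟨by omega⟩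
    have hzb : NeZero b := ⟨by omega⟩
    have h4 := hC a b k hza hzb hz hab ν
    have ha' := iha hza ν
    have hb' := ihb hzb ν
    rw [h4, hab.primeFactors_mul, Finset.prod_union hab.disjoint_primeFactors]
    push_cast
    have hpa : 0 ≤ ∏ p ∈ a.primeFactors, th p :=
      Finset.prod_nonneg fun p hp => (th_pos (Nat.prime_of_mem_primeFactors hp)).le
    have hpb : 0 ≤ ∏ p ∈ b.primeFactors, th p :=
      Finset.prod_nonneg fun p hp => (th_pos (Nat.prime_of_mem_primeFactors hp)).le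
    calc ((a : ℝ) * b) ^ 2 * ((∏ p ∈ a.primeFactors, th p) * ∏ p ∈ b.primeFactors, th p)
        = ((a : ℝ) ^ 2 * ∏ p ∈ a.primeFactors, th p) *
          ((b : ℝ) ^ 2 * ∏ p ∈ b.primeFactors, th p) := by ring
      _ ≤ _ := mul_le_mul ha' hb' (by positivity) (by positivity)

theorem t_RHOFA : RHOFA := by
  intro hL h2 h3 hP hC hM
  obtain ⟨c, hc, hM⟩ := hM
  refine ⟨4 / 9 * c, by positivity, ?_⟩
  intro Q0 k hQ ν hz
  refine le_trans ?_ (all_le hL h2 h3 hP hC k Q0.factorial hz ν)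
  have hlog : 0 < Real.log Q0 := Real.log_pos (by exact_mod_cast hQ)
  have hM' := hM Q0 hQ
  set T := (Icc 5 Q0).filter Nat.Prime with hT
  have hTS : T ⊆ Q0.factorial.primeFactors := by
    intro p hp
    obtain ⟨hp1, hp2⟩ := Finset.mem_filter.1 hp
    exact Nat.mem_primeFactors.2 ⟨hp2, (hp2.dvd_factorial).2 (Finset.mem_Icc.1 hp1).2,
      Nat.factorial_ne_zero _⟩
  have hsub : Q0.factorial.primeFactors \ T ⊆ {2, 3} := by
    intro p hp
    obtain ⟨hp1, hp2⟩ := Finset.mem_sdiff.1 hp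
    obtain ⟨hp3, hp4, -⟩ := Nat.mem_primeFactors.1 hp1
    rcases prime_cases hp3 with h | h | h
    · simp [h]
    · simp [h]
    · exact absurd (Finset.mem_filter.2 ⟨Finset.mem_Icc.2 ⟨h, (hp3.dvd_factorial).1 hp4⟩, hp3⟩) hp2
  have h49 : 4 / 9 ≤ ∏ p ∈ Q0.factorial.primeFactors \ T, th p := by
    have t2 : th 2 = 1 := by norm_num [th]
    have t3 : th 3 = 4 / 9 := by norm_num [th]
    have hS : ∏ p ∈ Q0.factorial.primeFactors \ T, th p =
        ∏ p ∈ ({2, 3} : Finset ℕ), if p ∈ Q0.factorial.primeFactors \ T then th p else 1 := by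
      rw [← Finset.prod_filter]
      refine Finset.prod_congr ?_ fun _ _ => rfl
      ext x
      rw [Finset.mem_filter]
      exact ⟨fun h => ⟨hsub h, h⟩, fun h => h.2⟩
    rw [hS, Finset.prod_pair (by norm_num), t2, t3]
    split_ifs <;> norm_num
  have hTth : ∏ p ∈ T, (1 - 5 / (p : ℝ) + 2 / (p : ℝ) ^ 2) = ∏ p ∈ T, th p := by
    refine Finset.prod_congr rfl fun p hp => ?_
    have hp5 := (Finset.mem_Icc.1 (Finset.mem_filter.1 hp).1).1
    unfold th
    rw [if_neg (by omega), if_neg (by omega)]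
  have hT0 : 0 ≤ ∏ p ∈ T, th p :=
    Finset.prod_nonneg fun p hp => (th_pos (Finset.mem_filter.1 hp).2).le
  rw [← Finset.prod_sdiff hTS]
  rw [hTth] at hM'
  have h5 : 4 / 9 * c / Real.log Q0 ^ 5 ≤
      (∏ p ∈ Q0.factorial.primeFactors \ T, th p) * ∏ p ∈ T, th p := by
    calc 4 / 9 * c / Real.log Q0 ^ 5 = 4 / 9 * (c / Real.log Q0 ^ 5) := by ring
      _ ≤ 4 / 9 * ∏ p ∈ T, th p := by gcongr
      _ ≤ _ := mul_le_mul_of_nonneg_right h49 hT0
  calc 4 / 9 * c / Real.log Q0 ^ 5 * (Q0.factorial : ℝ) ^ 2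
      ≤ ((∏ p ∈ Q0.factorial.primeFactors \ T, th p) * ∏ p ∈ T, th p) *
        (Q0.factorial : ℝ) ^ 2 := by gcongr
    _ = _ := by ring

end Pool.Agent.N378.AO
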